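import Pool.Agent.Lib.MP_acafa7_al.MS.Iface3

/-! Module G3C: solvable groups that are finite-by-abelian. -/

namespace MSG.H41

open MSG

theorem g3c (h1 : GSStatement) : G3CStatement := by
  intro Γ _ hPN hPB H K hsol hKH hnorm hKfin hcom ⟨a, haH, haI⟩
  have hfinK : Finite K := hKfin
  -- the action of `H` on `K`
  let φ : H →* MulAut K :=
    { toFun := fun h =>
        { toFun := fun k => ⟨h.1 * k.1 * h.1⁻¹, hnorm h.1 h.2 k.1 k.2⟩
          invFun := fun k => ⟨h.1⁻¹ * k.1 * h.1, by
            have := hnorm h.1⁻¹ (H.inv_mem h.2) k.1 k.2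
            rwa [inv_inv] at this⟩
          left_inv := fun k => Subtype.ext (by simp only; group)
          right_inv := fun k => Subtype.ext (by simp only; group)
          map_mul' := fun k l => Subtype.ext (by
            simp only [Subgroup.coe_mul]; group) }
      map_one' := by
        ext k
        simp
      map_mul' := fun h h' => by
        ext k
        simp only [Subgroup.coe_mul, MulEquiv.coe_mk, Equiv.coe_fn_mk, MulAut.mul_apply]
        group }
  have hfinAut : Finite (MulAut K) := by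
    have : Function.Injective (fun f : MulAut K => (f : K → K)) := fun f g h => by
      ext x
      exact congrArg Subtype.val (congrFun h x)
    exact Finite.of_injective _ this
  set C : Subgroup Γ := φ.ker.map H.subtype with hC
  have hCH : C ≤ H := by
    rintro _ ⟨x, _, rfl⟩
    exact x.2
  have hCindex : C.relIndex H ≠ 0 := by
    have h2 : φ.ker.index ≠ 0 := by
      have : Finite (φ.range) := inferInstance
      rw [Subgroup.index_ker]
      exact Nat.card_pos.ne'
    have h3 : C.subgroupOf H = φ.ker := by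
      rw [hC]
      exact Subgroup.comap_map_eq_self_of_injective Subtype.val_injective _
    rw [Subgroup.relIndex, h3]
    exact h2
  have hCmem : ∀ x ∈ H, (∀ k ∈ K, x * k * x⁻¹ = k) → x ∈ C := by
    intro x hx hk
    refine ⟨⟨x, hx⟩, ?_, rfl⟩
    change φ ⟨x, hx⟩ = 1
    ext k
    exact hk k.1 k.2
  have hCcen : ∀ x ∈ C, ∀ k ∈ K, x * k * x⁻¹ = k := by
    rintro _ ⟨x, hx, rfl⟩ k hk
    have h4 : φ x = 1 := hx
    have h5 := congrArg (fun f : MulAut K => ((f ⟨k, hk⟩ : K) : Γ)) h4
    exact h5
  -- a power of `a` in `C`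
  obtain ⟨r, hr0, hrC⟩ : ∃ r : ℕ, r ≠ 0 ∧ a ^ r ∈ C := by
    have hf : C.relIndex H ≠ 0 := hCindex
    obtain ⟨r, hr1, _, hr3⟩ := Subgroup.exists_pow_mem_of_relIndex_ne_zero hf haH
    exact ⟨r, by omega, hr3.1⟩
  set b : Γ := a ^ r with hb
  have hbH : b ∈ H := hCH hrC
  set m : ℕ := Nat.card K with hm
  have hm0 : m ≠ 0 := Nat.card_pos.ne'
  have hcomm : ∀ x ∈ C, x * b ^ m = b ^ m * x := by
    intro x hx
    have hk : b * x * b⁻¹ * x⁻¹ ∈ K := hcom b hbH x (hCH hx)
    set k := b * x * b⁻¹ * x⁻¹ with hkdef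
    have h6 : b * x * b⁻¹ = k * x := by rw [hkdef]; group
    have h7 : b * k = k * b := by
      have := hCcen b hrC k hk
      calc b * k = b * k * b⁻¹ * b := by group
        _ = k * b := by rw [this]
    have h8 : ∀ n : ℕ, b ^ n * x * (b ^ n)⁻¹ = k ^ n * x := by
      intro n
      induction n with
      | zero => simp
      | succ n ih =>
        have h9 : b * k ^ n = k ^ n * b := (Commute.pow_right (show Commute b k from h7) n).eq
        calc b ^ (n + 1) * x * (b ^ (n + 1))⁻¹ = b * (b ^ n * x * (b ^ n)⁻¹) * b⁻¹ := by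
              rw [pow_succ' b n]; group
          _ = b * (k ^ n * x) * b⁻¹ := by rw [ih]
          _ = (b * k ^ n) * x * b⁻¹ := by group
          _ = k ^ n * (b * x * b⁻¹) := by rw [h9]; group
          _ = k ^ n * (k * x) := by rw [h6]
          _ = k ^ (n + 1) * x := by rw [pow_succ k n]; group
    have h10 : k ^ m = 1 := by
      have h14 : (⟨k, hk⟩ : K) ^ m = 1 := pow_card_eq_one'
      exact congrArg Subtype.val h14
    have h11 := h8 m
    rw [h10, one_mul] at h11
    calc x * b ^ m = (b ^ m * x * (b ^ m)⁻¹) * b ^ m := by rw [h11]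
      _ = b ^ m * x := by group
  have hbmC : b ^ m ∈ C := C.pow_mem hrC m
  have hbmI : InfO (b ^ m) := by
    intro n hn
    have h12 : a ^ ((r : ℤ) * (m : ℤ) * n) = 1 := by
      rw [zpow_mul, zpow_mul, zpow_natCast, zpow_natCast]
      exact hn
    have h13 := haI _ h12
    have hr' : (r : ℤ) ≠ 0 := by exact_mod_cast hr0
    have hm' : (m : ℤ) ≠ 0 := by exact_mod_cast hm0
    rcases mul_eq_zero.1 h13 with h | h
    · rcases mul_eq_zero.1 h with h | h
      · exact absurd h hr'
      · exact absurd h hm'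
    · exact h
  have hsolC : Group.IsSolvable C :=
    Group.isSolvable_of_isSolvable_injective (Subgroup.inclusion_injective hCH)
  rcases h1 Γ hPN hPB C (b ^ m) hsolC hbmC hbmI hcomm with ⟨c, hcC, hcI, hc⟩ | ⟨c, hcC, d, hdC, hcd, hc⟩
  · left
    refine ⟨c, hCH hcC, hcI, ?_⟩
    rw [← Subgroup.relIndex_mul_relIndex (Subgroup.zpowers c) C H
      ((Subgroup.zpowers_le).2 hcC) hCH]
    exact Nat.mul_ne_zero hc hCindex
  · right
    refine ⟨c, hCH hcC, d, hCH hdC, hcd, ?_⟩
    rw [← Subgroup.relIndex_mul_relIndex (Subgroup.closure {c, d}) C H ?_ hCH]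
    · exact Nat.mul_ne_zero hc hCindex
    · rw [Subgroup.closure_le]
      rintro z (rfl | rfl)
      · exact hcC
      · exact hdC

end MSG.H41
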