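import Pool.Agent.Lib.MP_acafa7_al.MS.Iface3

/-! Module GS: solvable groups centralizing an element of infinite order. -/

namespace MSG.H41

open MSG

theorem gs (h1 : G2Statement) : GSStatement := by
  intro Γ _ hPN hPB H a hsol ha haI hcen
  set a' : H := ⟨a, ha⟩ with ha'
  have hcen' : ∀ x : H, x * a' = a' * x := fun x => Subtype.ext (hcen x.1 x.2)
  have hZn : (Subgroup.zpowers a').Normal := by
    constructor
    intro n hn g
    obtain ⟨k, rfl⟩ := Subgroup.mem_zpowers_iff.1 hn
    have hc : Commute g (a' ^ k) := Commute.zpow_right (hcen' g) k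
    have : g * a' ^ k * g⁻¹ = a' ^ k := by
      rw [hc.eq, mul_inv_cancel_right]
    rw [this]
    exact hn
  set Z : Subgroup H := Subgroup.zpowers a' with hZ
  let π : H →* H ⧸ Z := QuotientGroup.mk' Z
  have hπs : Function.Surjective π := QuotientGroup.mk'_surjective Z
  have hker : ∀ x : H, π x = 1 ↔ x ∈ Z := fun x => QuotientGroup.eq_one_iff x
  have hinj : Function.Injective H.subtype := Subtype.val_injective
  have hZmap : Z.map H.subtype = Subgroup.zpowers a := by
    rw [hZ, MonoidHom.map_zpowers]
    rfl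
  have hZcomap : (⊥ : Subgroup (H ⧸ Z)).comap π = Z := by
    rw [MonoidHom.comap_bot, QuotientGroup.ker_mk']
  have hrel : ∀ F : Subgroup (H ⧸ Z), (Subgroup.zpowers a).relIndex ((F.comap π).map H.subtype)
      = Nat.card F := by
    intro F
    rw [← hZmap, Subgroup.relIndex_map_map_of_injective _ _ hinj]
    have h11 : ((⊥ : Subgroup (H ⧸ Z)).comap π).relIndex (F.comap π) = Nat.card F := by
      rw [Subgroup.relIndex_comap, Subgroup.map_comap_eq_self_of_surjective hπs,
        Subgroup.relIndex_bot_left]
    rw [hZcomap] at h11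
    exact h11
  -- FinB
  obtain ⟨N, hN⟩ := hPB a haI
  have hFinB : FinB (H ⧸ Z) N := by
    intro F hF
    rw [← hrel F]
    apply hN
    · refine ⟨a', ?_, rfl⟩
      change π a' ∈ F
      rw [(hker a').2 (Subgroup.mem_zpowers a')]
      exact F.one_mem
    · rintro h ⟨x, _, rfl⟩
      exact hcen x.1 x.2
    · rw [hrel F]
      have : Finite F := hF
      exact Nat.card_pos.ne'
  have hInd : ∀ b : H, InfO (π b) → Ind a b.1 := by
    intro b hb
    refine ⟨(hcen b.1 b.2).symm, ?_⟩
    intro i j hij
    have h2 : a' ^ i * b ^ j = 1 := by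
      apply Subtype.ext
      simpa using hij
    have h3 : π b ^ j = 1 := by
      have h4 := congrArg π h2
      rw [map_mul, map_zpow, map_zpow, (hker a').2 (Subgroup.mem_zpowers a'), one_zpow, one_mul,
        map_one] at h4
      exact h4
    have hj : j = 0 := hb j h3
    subst hj
    refine ⟨?_, rfl⟩
    apply haI
    simpa using hij
  have hle : ∀ b : H, ((Subgroup.zpowers (π b)).comap π).map H.subtype ≤
      Subgroup.closure {a, b.1} := by
    rintro b _ ⟨x, hx, rfl⟩
    obtain ⟨j, hj⟩ := Subgroup.mem_zpowers_iff.1 (Subgroup.mem_comap.1 hx)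
    have h5 : (b ^ j)⁻¹ * x ∈ Z := by
      rw [← hker, map_mul, map_inv, map_zpow, hj, inv_mul_cancel]
    obtain ⟨i, hi⟩ := Subgroup.mem_zpowers_iff.1 h5
    have h6 : x = b ^ j * a' ^ i := by rw [hi]; group
    rw [h6]
    simp only [Subgroup.coe_subtype, Subgroup.coe_mul, SubgroupClass.coe_zpow]
    apply Subgroup.mul_mem
    · exact Subgroup.zpow_mem _ (Subgroup.subset_closure (by simp)) j
    · exact Subgroup.zpow_mem _ (Subgroup.subset_closure (by simp [ha'])) i
  have hge : ∀ b : H, Subgroup.closure {a, b.1} ≤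
      ((Subgroup.zpowers (π b)).comap π).map H.subtype := by
    intro b
    rw [Subgroup.closure_le]
    rintro z (rfl | rfl)
    · refine ⟨a', ?_, rfl⟩
      change π a' ∈ Subgroup.zpowers (π b)
      rw [(hker a').2 (Subgroup.mem_zpowers a')]
      exact Subgroup.one_mem _
    · exact ⟨b, Subgroup.mem_zpowers _, rfl⟩
  have hCyc : CycN (H ⧸ Z) := by
    intro s hs K hsK hK
    obtain ⟨b, rfl⟩ := hπs s
    have hab := hInd b hs
    have h7 := hPN a b.1 hab ((K.comap π).map H.subtype) ?_ ?_
    · have heq : Subgroup.closure {a, b.1} = ((Subgroup.zpowers (π b)).comap π).map H.subtype :=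
        le_antisymm (hge b) (hle b)
      rw [heq, Subgroup.relIndex_map_map_of_injective _ _ hinj, Subgroup.relIndex_comap,
        Subgroup.map_comap_eq_self_of_surjective hπs] at h7
      exact h7
    · refine le_trans (hge b) ?_
      apply Subgroup.map_mono
      apply Subgroup.comap_mono
      rw [Subgroup.zpowers_le]
      exact hsK
    · rintro g ⟨x, hx, rfl⟩
      refine ⟨1, le_refl _, ?_, ?_⟩
      · have h8 : (H.subtype x)⁻¹ * a ^ 1 * H.subtype x = a := by
          rw [pow_one]
          have := hcen x.1 x.2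
          calc (x.1)⁻¹ * a * x.1 = (x.1)⁻¹ * (x.1 * a) := by rw [mul_assoc, this]
            _ = a := by group
        rw [h8]
        exact Subgroup.subset_closure (by simp)
      · apply hle b
        refine ⟨x⁻¹ * b * x, ?_, ?_⟩
        · change π (x⁻¹ * b * x) ∈ Subgroup.zpowers (π b)
          have h9 := hK (π x)⁻¹ (K.inv_mem hx)
          rw [inv_inv] at h9
          simpa [map_mul, map_inv] using h9
        · simp
  have hsolq : Group.IsSolvable (H ⧸ Z) := inferInstance
  rcases h1 (H ⧸ Z) N inferInstance hFinB hCyc with hfin | ⟨s, hs, hsi⟩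
  · left
    refine ⟨a, ha, haI, ?_⟩
    have := hrel ⊤
    rw [Subgroup.comap_top, ← MonoidHom.range_eq_map, Subgroup.range_subtype] at this
    rw [this]
    have : Finite (⊤ : Subgroup (H ⧸ Z)) := inferInstance
    exact Nat.card_pos.ne'
  · right
    obtain ⟨b, rfl⟩ := hπs s
    refine ⟨a, ha, b.1, b.2, hInd b hs, ?_⟩
    have heq : Subgroup.closure {a, b.1} = ((Subgroup.zpowers (π b)).comap π).map H.subtype :=
      le_antisymm (hge b) (hle b)
    have htop : H = ((⊤ : Subgroup (H ⧸ Z)).comap π).map H.subtype := by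
      rw [Subgroup.comap_top, ← MonoidHom.range_eq_map, Subgroup.range_subtype]
    rw [heq]
    have h10 : (((Subgroup.zpowers (π b)).comap π).map H.subtype).relIndex
        (((⊤ : Subgroup (H ⧸ Z)).comap π).map H.subtype) ≠ 0 := by
      rw [Subgroup.relIndex_map_map_of_injective _ _ hinj, Subgroup.relIndex_comap,
        Subgroup.map_comap_eq_self_of_surjective hπs, Subgroup.relIndex_top_right]
      exact hsi
    rw [← htop] at h10
    exact h10

end MSG.H41
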